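import Mathlib

set_option autoImplicit false
open MeasureTheory Set
open scoped ENNReal Real

/-! # Averages over circles whose radius is proportional to a slowly varying function -/

namespace Pool.Agent.H42.FB

variable {n : ℕ}

/-- The weight in the variable `t`. -/
noncomputable def aa (g : (Fin n → ℂ) → ℝ) (c₁ c₂ c₃ : ℝ) (ζ : Fin n → ℂ) (t : ℝ) : ℝ≥0∞ :=
  open Classical in
  if 0 < g ζ ∧ c₁ * g ζ < t ∧ t ≤ c₂ * g ζ then ENNReal.ofReal (c₃ / g ζ) else 0

lemma lintegral_aa {g : (Fin n → ℂ) → ℝ} {c₁ c₂ c₃ : ℝ} (h3 : 0 ≤ c₃)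
    {ζ : Fin n → ℂ} (hg : 0 < g ζ) :
    ∫⁻ t, aa g c₁ c₂ c₃ ζ t = ENNReal.ofReal (c₃ * (c₂ - c₁)) := by
  classical
  have h : (fun t => aa g c₁ c₂ c₃ ζ t) =
      (Ioc (c₁ * g ζ) (c₂ * g ζ)).indicator (fun _ => ENNReal.ofReal (c₃ / g ζ)) := by
    ext t
    simp only [aa, hg, true_and, Set.indicator_apply, mem_Ioc]
  rw [h, lintegral_indicator_const measurableSet_Ioc, Real.volume_Ioc,
    ← ENNReal.ofReal_mul (div_nonneg h3 hg.le)]
  congr 1
  field_simp

lemma aa_zero {g : (Fin n → ℂ) → ℝ} {c₁ c₂ c₃ : ℝ} {ζ : Fin n → ℂ} (hg : ¬0 < g ζ) (t : ℝ) :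
    aa g c₁ c₂ c₃ ζ t = 0 := by
  classical
  simp only [aa, hg, false_and, if_false]

lemma measurable_aa {g : (Fin n → ℂ) → ℝ} (hg : Measurable g) (c₁ c₂ c₃ : ℝ) :
    Measurable fun x : (Fin n → ℂ) × ℝ => aa g c₁ c₂ c₃ x.1 x.2 := by
  classical
  have h1 : Measurable fun x : (Fin n → ℂ) × ℝ => g x.1 := hg.comp measurable_fst
  refine Measurable.ite ?_ ?_ measurable_const
  · refine (measurableSet_lt measurable_const h1).inter
      ((measurableSet_lt (h1.const_mul c₁) measurable_snd).inter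
        (measurableSet_le measurable_snd (h1.const_mul c₂)))
  · exact (measurable_const.div h1).ennreal_ofReal

/-- **Tonelli.** -/
theorem ton {g K B : (Fin n → ℂ) → ℝ} (hg : Continuous g) {l : ℝ} (hl : 0 < l)
    (hgw : ∀ ζ, 0 < g ζ → ∀ w, ‖w‖ ≤ l * g ζ → g ζ / 2 ≤ g (ζ + w) ∧ g (ζ + w) ≤ 2 * g ζ)
    (hK0 : ∀ ζ, 0 ≤ K ζ) (hKc : Continuous K) (hKi : Integrable K)
    (hB0 : ∀ ζ, 0 ≤ B ζ) (hBc : Continuous B) {v : Fin n → ℂ} (hv : ‖v‖ ≤ 1) {C : ℝ}
    (hC : 0 ≤ C)
    (hB : ∀ ζ, 0 < g ζ → ∀ t, l * g ζ / 2 < t → t ≤ l * g ζ →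
      B ζ ≤ C * ∫ θ in (0 : ℝ)..2 * π, K (ζ + circleMap 0 t θ • v)) :
    IntegrableOn B {ζ | 0 < g ζ} ∧
      ∫ ζ in {ζ | 0 < g ζ}, B ζ ≤ 14 * π * C * ∫ ζ, K ζ := by
  classical
  have hpi := Real.pi_pos
  have hS : MeasurableSet {ζ | 0 < g ζ} := (isOpen_lt continuous_const hg).measurableSet
  set Θ : Measure ℝ := volume.restrict (Ioc (0 : ℝ) (2 * π)) with hΘ
  set a := aa g (l / 2) l (2 / l) with ha
  set a' := aa g (l / 4) (2 * l) (4 / l) with ha'
  have ma : Measurable fun x : (Fin n → ℂ) × ℝ => a x.1 x.2 := measurable_aa hg.measurable _ _ _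
  have ma' : Measurable fun x : (Fin n → ℂ) × ℝ => a' x.1 x.2 :=
    measurable_aa hg.measurable _ _ _
  have mK : Measurable fun ζ => ENNReal.ofReal (K ζ) := hKc.measurable.ennreal_ofReal
  have cK : ∀ (ζ : Fin n → ℂ) (t : ℝ), Continuous fun θ : ℝ => K (ζ + circleMap 0 t θ • v) := by
    intro ζ t
    have := continuous_circleMap (0 : ℂ) t
    fun_prop
  -- pointwise
  have h1 : ∀ ζ t, a ζ t * ENNReal.ofReal (B ζ) ≤
      ENNReal.ofReal C * ∫⁻ θ, a ζ t * ENNReal.ofReal (K (ζ + circleMap 0 t θ • v)) ∂Θ := by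
    intro ζ t
    by_cases h : 0 < g ζ ∧ l / 2 * g ζ < t ∧ t ≤ l * g ζ
    · obtain ⟨g0, t1, t2⟩ := h
      have h2 := hB ζ g0 t (by linarith) t2
      rw [lintegral_const_mul _ (cK ζ t).measurable.ennreal_ofReal]
      have h3 : ENNReal.ofReal (B ζ) ≤ ENNReal.ofReal C *
          ∫⁻ θ, ENNReal.ofReal (K (ζ + circleMap 0 t θ • v)) ∂Θ := by
        rw [intervalIntegral.integral_of_le (by positivity)] at h2
        refine (ENNReal.ofReal_le_ofReal h2).trans (le_of_eq ?_)
        rw [ENNReal.ofReal_mul hC, ofReal_integral_eq_lintegral_ofReal]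
        · exact ((cK ζ t).integrableOn_Icc.mono_set Ioc_subset_Icc_self)
        · exact Filter.Eventually.of_forall fun θ => hK0 _
      calc a ζ t * ENNReal.ofReal (B ζ)
          ≤ a ζ t * (ENNReal.ofReal C *
            ∫⁻ θ, ENNReal.ofReal (K (ζ + circleMap 0 t θ • v)) ∂Θ) := by gcongr
        _ = _ := by ring
    · have : a ζ t = 0 := by simp only [ha, aa, h, if_false]
      rw [this, zero_mul]; exact zero_le
  -- translation
  have h4 : ∀ t θ, ∫⁻ ζ, a ζ t * ENNReal.ofReal (K (ζ + circleMap 0 t θ • v)) ≤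
      ∫⁻ ζ, a' ζ t * ENNReal.ofReal (K ζ) := by
    intro t θ
    rw [← lintegral_add_right_eq_self (fun ζ => a' ζ t * ENNReal.ofReal (K ζ))
      (circleMap 0 t θ • v)]
    refine lintegral_mono fun ζ => ?_
    refine mul_le_mul_left ?_ _
    by_cases h : 0 < g ζ ∧ l / 2 * g ζ < t ∧ t ≤ l * g ζ
    · obtain ⟨g0, t1, t2⟩ := h
      have t0 : 0 < t := lt_trans (by positivity) t1
      have hw : ‖circleMap 0 t θ • v‖ ≤ l * g ζ := by
        rw [norm_smul, norm_circleMap_zero, abs_of_pos t0]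
        calc t * ‖v‖ ≤ t * 1 := by gcongr
          _ ≤ l * g ζ := by linarith
      obtain ⟨g1, g2⟩ := hgw ζ g0 _ hw
      set ζ' := ζ + circleMap 0 t θ • v with hζ'
      have g3 : 0 < g ζ' := lt_of_lt_of_le (by positivity) g1
      have e1 : l / 4 * g ζ' < t := by nlinarith
      have e2 : t ≤ 2 * l * g ζ' := by nlinarith
      simp only [ha, ha', aa, g0, t1, t2, g3, e1, e2, and_self, if_true]
      refine ENNReal.ofReal_le_ofReal ?_
      rw [div_div, div_div, div_le_div_iff₀ (by positivity) (by positivity)]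
      nlinarith
    · have : a ζ t = 0 := by simp only [ha, aa, h, if_false]
      rw [this]; exact zero_le
  -- the estimate with lintegral
  have hmain : ∫⁻ ζ in {ζ | 0 < g ζ}, ENNReal.ofReal (B ζ) ≤
      ENNReal.ofReal (14 * π * C) * ∫⁻ ζ, ENNReal.ofReal (K ζ) := by
    have e1 : ∫⁻ ζ in {ζ | 0 < g ζ}, ENNReal.ofReal (B ζ) =
        ∫⁻ ζ, ∫⁻ t, a ζ t * ENNReal.ofReal (B ζ) := by
      rw [← lintegral_indicator hS]
      refine lintegral_congr fun ζ => ?_
      have ma1 : Measurable fun t => a ζ t := ma.comp measurable_prodMk_left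
      rw [lintegral_mul_const _ ma1]
      by_cases h : 0 < g ζ
      · rw [Set.indicator_of_mem (show ζ ∈ {ζ | 0 < g ζ} from h), ha,
          lintegral_aa (by positivity) h]
        have : 2 / l * (l - l / 2) = 1 := by field_simp; ring
        rw [this, ENNReal.ofReal_one, one_mul]
      · rw [Set.indicator_of_notMem (show ζ ∉ {ζ | 0 < g ζ} from h)]
        simp only [ha, aa_zero h, lintegral_zero, zero_mul]
    have m3 : Measurable fun x : (Fin n → ℂ) × ℝ × ℝ =>
        a x.1 x.2.1 * ENNReal.ofReal (K (x.1 + circleMap 0 x.2.1 x.2.2 • v)) := by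
      have m1 : Measurable fun x : (Fin n → ℂ) × ℝ × ℝ => a x.1 x.2.1 :=
        ma.comp (measurable_fst.prodMk (measurable_fst.comp measurable_snd))
      have c1 : Continuous fun x : (Fin n → ℂ) × ℝ × ℝ =>
          K (x.1 + circleMap 0 x.2.1 x.2.2 • v) := by
        unfold circleMap
        fun_prop
      exact m1.mul c1.measurable.ennreal_ofReal
    calc ∫⁻ ζ in {ζ | 0 < g ζ}, ENNReal.ofReal (B ζ)
        = ∫⁻ ζ, ∫⁻ t, a ζ t * ENNReal.ofReal (B ζ) := e1
      _ ≤ ∫⁻ ζ, ∫⁻ t, ENNReal.ofReal C *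
            ∫⁻ θ, a ζ t * ENNReal.ofReal (K (ζ + circleMap 0 t θ • v)) ∂Θ :=
          lintegral_mono fun ζ => lintegral_mono fun t => h1 ζ t
      _ = ENNReal.ofReal C * ∫⁻ ζ, ∫⁻ t,
            ∫⁻ θ, a ζ t * ENNReal.ofReal (K (ζ + circleMap 0 t θ • v)) ∂Θ := by
          have m4 : Measurable fun x : (Fin n → ℂ) × ℝ =>
              ∫⁻ θ, a x.1 x.2 * ENNReal.ofReal (K (x.1 + circleMap 0 x.2 θ • v)) ∂Θ := by
            have : Measurable fun y : ((Fin n → ℂ) × ℝ) × ℝ =>
                a y.1.1 y.1.2 * ENNReal.ofReal (K (y.1.1 + circleMap 0 y.1.2 y.2 • v)) :=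
              m3.comp ((measurable_fst.comp measurable_fst).prodMk
                ((measurable_snd.comp measurable_fst).prodMk measurable_snd))
            exact this.lintegral_prod_right'
          rw [← lintegral_const_mul _ m4.lintegral_prod_right']
          refine lintegral_congr fun ζ => ?_
          exact lintegral_const_mul _ (m4.comp measurable_prodMk_left)
      _ = ENNReal.ofReal C * ∫⁻ t, ∫⁻ θ, (∫⁻ ζ,
            a ζ t * ENNReal.ofReal (K (ζ + circleMap 0 t θ • v))) ∂Θ := by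
          congr 1
          rw [lintegral_lintegral_swap]
          · refine lintegral_congr fun t => ?_
            rw [lintegral_lintegral_swap]
            refine Measurable.aemeasurable ?_
            exact m3.comp (measurable_fst.prodMk
              (measurable_const.prodMk measurable_snd) : Measurable fun y :
                (Fin n → ℂ) × ℝ => (y.1, t, y.2))
          · refine Measurable.aemeasurable ?_
            have : Measurable fun y : ((Fin n → ℂ) × ℝ) × ℝ =>
                a y.1.1 y.1.2 * ENNReal.ofReal (K (y.1.1 + circleMap 0 y.1.2 y.2 • v)) :=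
              m3.comp ((measurable_fst.comp measurable_fst).prodMk
                ((measurable_snd.comp measurable_fst).prodMk measurable_snd))
            exact this.lintegral_prod_right'
      _ ≤ ENNReal.ofReal C * ∫⁻ t, ∫⁻ _θ, (∫⁻ ζ, a' ζ t * ENNReal.ofReal (K ζ)) ∂Θ := by
          gcongr ENNReal.ofReal C * ?_
          exact lintegral_mono fun t => lintegral_mono fun θ => h4 t θ
      _ = ENNReal.ofReal C * (ENNReal.ofReal (2 * π) *
            ∫⁻ t, ∫⁻ ζ, a' ζ t * ENNReal.ofReal (K ζ)) := by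
          congr 1
          have m5 : Measurable fun t => ∫⁻ ζ, a' ζ t * ENNReal.ofReal (K ζ) := by
            have : Measurable fun y : ℝ × (Fin n → ℂ) =>
                a' y.2 y.1 * ENNReal.ofReal (K y.2) :=
              (ma'.comp (measurable_snd.prodMk measurable_fst)).mul (mK.comp measurable_snd)
            exact this.lintegral_prod_right'
          rw [← lintegral_const_mul _ m5]
          refine lintegral_congr fun t => ?_
          rw [lintegral_const, hΘ, Measure.restrict_apply MeasurableSet.univ, univ_inter,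
            Real.volume_Ioc, sub_zero, mul_comm]
      _ = ENNReal.ofReal C * (ENNReal.ofReal (2 * π) *
            ∫⁻ ζ, ∫⁻ t, a' ζ t * ENNReal.ofReal (K ζ)) := by
          congr 2
          rw [lintegral_lintegral_swap]
          refine Measurable.aemeasurable ?_
          exact (ma'.comp (measurable_snd.prodMk measurable_fst)).mul (mK.comp measurable_snd)
      _ ≤ ENNReal.ofReal C * (ENNReal.ofReal (2 * π) *
            ∫⁻ ζ, ENNReal.ofReal 7 * ENNReal.ofReal (K ζ)) := by
          gcongr with ζ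
          have ma1 : Measurable fun t => a' ζ t := ma'.comp measurable_prodMk_left
          rw [lintegral_mul_const _ ma1]
          by_cases h : 0 < g ζ
          · rw [ha', lintegral_aa (by positivity) h]
            have : 4 / l * (2 * l - l / 4) = 7 := by field_simp; ring
            rw [this]
          · simp only [ha', aa_zero h, lintegral_zero, zero_mul]
            exact zero_le
      _ = ENNReal.ofReal (14 * π * C) * ∫⁻ ζ, ENNReal.ofReal (K ζ) := by
          rw [lintegral_const_mul _ mK]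
          have : ENNReal.ofReal (14 * π * C) =
              ENNReal.ofReal C * (ENNReal.ofReal (2 * π) * ENNReal.ofReal 7) := by
            rw [← ENNReal.ofReal_mul (by positivity), ← ENNReal.ofReal_mul hC]
            congr 1; ring
          rw [this]
          ring
  have hKl : ∫⁻ ζ, ENNReal.ofReal (K ζ) = ENNReal.ofReal (∫ ζ, K ζ) :=
    (ofReal_integral_eq_lintegral_ofReal hKi (Filter.Eventually.of_forall hK0)).symm
  have hBi : IntegrableOn B {ζ | 0 < g ζ} := by
    refine ⟨hBc.aestronglyMeasurable, ?_⟩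
    rw [hasFiniteIntegral_iff_ofReal (Filter.Eventually.of_forall hB0)]
    refine hmain.trans_lt ?_
    rw [hKl]
    exact ENNReal.mul_lt_top ENNReal.ofReal_lt_top ENNReal.ofReal_lt_top
  refine ⟨hBi, ?_⟩
  have h5 : 0 ≤ 14 * π * C * ∫ ζ, K ζ := by
    have := integral_nonneg (μ := (volume : Measure (Fin n → ℂ))) (f := K) hK0
    positivity
  rw [← ENNReal.ofReal_le_ofReal_iff h5, ofReal_integral_eq_lintegral_ofReal hBi
    (Filter.Eventually.of_forall hB0), ENNReal.ofReal_mul (by positivity), ← hKl]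
  exact hmain

end Pool.Agent.H42.FB
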